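import Pool.Agent.H88.CL.Basic

/-! Module NUM: the numerical conditions of the scales. -/

set_option autoImplicit false

open Pool.Agent.H88.CL Set Function Topology Metric Filter

namespace Pool.Agent.H35.CL

theorem ev_le (s : ℕ → ℝ) (hs : ∀ A : ℝ, ∃ N0 : ℕ, ∀ N ≥ N0, A * N ≤ s N) (K B a : ℝ)
    (hB : 0 < B) (ha : 0 < a) :
    ∀ᶠ N : ℕ in atTop, K * B ^ N * Real.exp (-(a * s N)) ≤ 1 := by
  obtain ⟨N0, hN0⟩ := hs ((Real.log B + 1) / a)
  obtain ⟨N1, hN1⟩ := exists_nat_ge K
  refine eventually_atTop.mpr ⟨max N0 N1, fun N hN => ?_⟩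
  have h0 := hN0 N (le_trans (le_max_left _ _) hN)
  have h1 : (N1 : ℝ) ≤ N := by exact_mod_cast le_trans (le_max_right _ _) hN
  have h2 : (Real.log B + 1) * N ≤ a * s N := by
    have h3 := mul_le_mul_of_nonneg_left h0 ha.le
    have h4 : a * ((Real.log B + 1) / a * N) = (Real.log B + 1) * N := by
      field_simp
    linarith
  have h5 : B ^ N = Real.exp (N * Real.log B) := by
    rw [mul_comm, Real.exp_mul, Real.exp_log hB, Real.rpow_natCast]
  have h6 : B ^ N * Real.exp (-(a * s N)) ≤ Real.exp (-(N : ℝ)) := by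
    rw [h5, ← Real.exp_add]
    apply Real.exp_le_exp.mpr
    nlinarith
  have h7 : 0 ≤ B ^ N * Real.exp (-(a * s N)) := by positivity
  have h8 : (N : ℝ) ≤ Real.exp N := by linarith [Real.add_one_le_exp (N : ℝ)]
  have h9 : Real.exp (N : ℝ) * Real.exp (-(N : ℝ)) = 1 := by
    rw [← Real.exp_add]
    simp
  calc K * B ^ N * Real.exp (-(a * s N)) = K * (B ^ N * Real.exp (-(a * s N))) := by ring
    _ ≤ Real.exp N * (B ^ N * Real.exp (-(a * s N))) :=
        mul_le_mul_of_nonneg_right (by linarith) h7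
    _ ≤ Real.exp N * Real.exp (-(N : ℝ)) := mul_le_mul_of_nonneg_left h6 (Real.exp_pos _).le
    _ = 1 := h9

theorem ev_div (K e : ℝ) (he : 0 < e) : ∀ᶠ N : ℕ in atTop, K / N ≤ e := by
  obtain ⟨N1, hN1⟩ := exists_nat_ge (K / e)
  refine eventually_atTop.mpr ⟨max 1 N1, fun N hN => ?_⟩
  have h0 : 1 ≤ N := le_trans (le_max_left _ _) hN
  have h1 : (N1 : ℝ) ≤ N := by exact_mod_cast le_trans (le_max_right _ _) hN
  have h2 : (0 : ℝ) < N := by exact_mod_cast h0
  rw [div_le_iff₀ h2]
  have h3 : K / e ≤ N := by linarith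
  rw [div_le_iff₀ he] at h3
  linarith

theorem pf_NUM (h1 : T_SCL) (h2 : T_OMB) : T_NUM := by
  intro ω hω L C δ η t c0 hL hC hδ hη ht ht1 hc0
  obtain ⟨s, hs, hmono, hsM⟩ := h1 ω hω
  obtain ⟨r0, hr0, hom⟩ := h2 ω hω (6 * L / η)
  have hL0 : 0 < L := by linarith
  have hC0 : 0 < C := by linarith
  have e1 := ev_le s hs (32 / δ) (2 * L ^ 2) 1 (by positivity) one_pos
  have e2 := ev_le s hs 1700 (L ^ 15) 1 (by positivity) one_pos
  have e3 := ev_le s hs 51 (L ^ 5) (2 / 3) (by positivity) (by norm_num)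
  have e4 := ev_le s hs (1 / c0) (1 / t) (1 / 3) (by positivity) (by norm_num)
  have e5 := ev_div C (1 / 2) (by norm_num)
  have e6 := ev_le s hs (2 * L * C / η) (L ^ 3) 1 (by positivity) one_pos
  have e6' := ev_div (L * C) (η / 2) (by positivity)
  have e7 := ev_le s hs (2 * C / (3 * r0)) (L ^ 3) 1 (by positivity) one_pos
  have e8 := ev_le s hs (3 / 2) (L ^ 3) 1 (by positivity) one_pos
  obtain ⟨N8, hN8⟩ := hsM (4 * L * C / η)
  have e8' : ∀ᶠ N : ℕ in atTop, 4 * L * C / η / N ≤ ω (Real.exp (-(2 * s (N + 1)))) :=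
    eventually_atTop.mpr ⟨N8, hN8⟩
  have hall := ((((((((((eventually_ge_atTop (1 : ℕ)).and e1).and e2).and e3).and e4).and
    e5).and e6).and e6').and e7).and e8).and e8'
  obtain ⟨N0, hN0⟩ := eventually_atTop.mp hall
  refine ⟨s, max 1 N0, le_max_left _ _, ?_, ?_⟩
  · intro ε hε
    obtain ⟨N1, hN1⟩ := eventually_atTop.mp (ev_le s hs (2 / ε) 1 1 one_pos one_pos)
    refine ⟨N1, fun N hN => ?_⟩
    have h := hN1 N hN
    rw [one_pow, mul_one, one_mul, div_mul_eq_mul_div, div_le_one hε] at h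
    linarith
  · intro N hN
    obtain ⟨⟨⟨⟨⟨⟨⟨⟨⟨⟨k0, k1⟩, k2⟩, k3⟩, k4⟩, k5⟩, k6⟩, k6'⟩, k7⟩, k8⟩, k8'⟩ :=
      hN0 N (le_trans (le_max_right _ _) hN)
    have hNp : (0 : ℝ) < N := by exact_mod_cast k0
    rw [one_mul] at k1 k2 k6 k7 k8
    have hEp : 0 < Real.exp (-s N) := Real.exp_pos _
    have p2 : L ^ (2 * N) = (L ^ 2) ^ N := pow_mul L 2 N
    have p15 : L ^ (15 * N) = (L ^ 15) ^ N := pow_mul L 15 N
    have p5 : L ^ (5 * N) = (L ^ 5) ^ N := pow_mul L 5 N
    have p3 : L ^ (3 * N) = (L ^ 3) ^ N := pow_mul L 3 N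
    have hσ0 : 0 < C * L ^ (3 * N) * Real.exp (-s N) := by positivity
    refine ⟨?_, ?_, ?_, ?_, k5, ?_, ?_, ?_⟩
    · rw [p2, le_div_iff₀ (by positivity)]
      rw [mul_pow, div_mul_eq_mul_div, div_mul_eq_mul_div, div_le_one hδ] at k1
      calc 16 * (L ^ 2) ^ N * Real.exp (-s N) * 2 ^ (N + 1)
          = 32 * (2 ^ N * (L ^ 2) ^ N) * Real.exp (-s N) := by ring
        _ ≤ δ := k1
    · rw [p15]
      exact k2
    · have hx : Real.exp (-s N) = Real.exp (-(2 / 3 * s N)) * Real.exp (-(s N / 3)) := by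
        rw [← Real.exp_add]
        congr 1
        ring
      rw [p5, hx]
      have h := mul_le_mul_of_nonneg_right k3 (Real.exp_pos (-(s N / 3))).le
      calc 51 * (L ^ 5) ^ N * (Real.exp (-(2 / 3 * s N)) * Real.exp (-(s N / 3)))
          = 51 * (L ^ 5) ^ N * Real.exp (-(2 / 3 * s N)) * Real.exp (-(s N / 3)) := by ring
        _ ≤ 1 * Real.exp (-(s N / 3)) := h
        _ = Real.exp (-(s N / 3)) := one_mul _
    · have hx : -(1 / 3 * s N) = -(s N / 3) := by ring
      rw [hx, one_div_pow] at k4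
      have htN : 0 < t ^ N := by positivity
      have h := mul_le_mul_of_nonneg_left k4 (by positivity : (0 : ℝ) ≤ c0 * t ^ N)
      have h' : c0 * t ^ N * (1 / c0 * (1 / t ^ N) * Real.exp (-(s N / 3))) =
          Real.exp (-(s N / 3)) := by
        field_simp
      rw [h', mul_one] at h
      exact h
    · have h6 : L * (C * L ^ (3 * N) * Real.exp (-s N)) ≤ η / 2 := by
        rw [p3]
        rw [div_mul_eq_mul_div, div_mul_eq_mul_div, div_le_one hη] at k6
        nlinarith
      have h6' : L * (C / N) ≤ η / 2 := by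
        have : L * (C / N) = L * C / N := by ring
        rw [this]
        exact k6'
      rw [mul_add]
      linarith
    · have h7 : 2 * (C * L ^ (3 * N) * Real.exp (-s N)) / 3 ≤ r0 := by
        rw [p3]
        rw [div_mul_eq_mul_div, div_mul_eq_mul_div, div_le_one (by positivity)] at k7
        rw [div_le_iff₀ (by norm_num)]
        nlinarith
      have h8 := hom _ (by positivity : (0 : ℝ) < 2 * (C * L ^ (3 * N) * Real.exp (-s N)) / 3) h7
      have h9 := mul_le_mul_of_nonneg_left h8 (by positivity : (0 : ℝ) ≤ η / 2)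
      refine le_trans (le_of_eq ?_) h9
      field_simp
      ring
    · intro D' hD hD1 hDe
      have hLN : 1 ≤ L ^ N := one_le_pow₀ (by linarith)
      have hse : Real.exp (-s (N + 1)) ≤ Real.exp (-s N) := by
        apply Real.exp_le_exp.mpr
        have := hmono (Nat.le_succ N)
        simp only [Nat.succ_eq_add_one] at this
        linarith
      have he0 : 0 < Real.exp (-s (N + 1)) := Real.exp_pos _
      have hexp : Real.exp (-(2 * s (N + 1))) = Real.exp (-s (N + 1)) * Real.exp (-s (N + 1)) := by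
        rw [← Real.exp_add]
        congr 1
        ring
      have hL3 : 3 * (L ^ (3 * N) * Real.exp (-s (N + 1))) ≤ 2 := by
        have h := mul_le_mul_of_nonneg_left hse (by positivity : (0 : ℝ) ≤ (L ^ 3) ^ N)
        rw [p3]
        linarith
      have hkey : Real.exp (-(2 * s (N + 1))) * (2 * D' + L ^ N) ≤ 2 * D' := by
        rw [hexp]
        have a1 : 2 * D' + L ^ N ≤ 3 * L ^ N := by linarith
        calc Real.exp (-s (N + 1)) * Real.exp (-s (N + 1)) * (2 * D' + L ^ N)
            ≤ Real.exp (-s (N + 1)) * Real.exp (-s (N + 1)) * (3 * L ^ N) :=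
              mul_le_mul_of_nonneg_left a1 (by positivity)
          _ = Real.exp (-s (N + 1)) * (3 * L ^ N * Real.exp (-s (N + 1))) := by ring
          _ ≤ L ^ (2 * N) * D' * (3 * L ^ N * Real.exp (-s (N + 1))) :=
              mul_le_mul_of_nonneg_right hDe (by positivity)
          _ = 3 * (L ^ (3 * N) * Real.exp (-s (N + 1))) * D' := by
              have : L ^ (3 * N) = L ^ (2 * N) * L ^ N := by
                rw [← pow_add]
                congr 1
                ring
              rw [this]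
              ring
          _ ≤ 2 * D' := mul_le_mul_of_nonneg_right hL3 hD.le
      have harg : 2 * (C / N) / (2 * (C / N) + C * L ^ N / (N * D')) =
          2 * D' / (2 * D' + L ^ N) := by
        field_simp
      have hle : Real.exp (-(2 * s (N + 1))) ≤
          2 * (C / N) / (2 * (C / N) + C * L ^ N / (N * D')) := by
        rw [harg, le_div_iff₀ (by positivity)]
        exact hkey
      have hm := hω.mono _ _ (Real.exp_pos _) hle
      have h9 := mul_le_mul_of_nonneg_left (k8'.trans hm) (by positivity : (0 : ℝ) ≤ η / 2)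
      refine le_trans (le_of_eq ?_) h9
      field_simp
      ring

end Pool.Agent.H35.CL
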